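import Pool.Agent.Helper93.IA.StC

/-!
# Project IA, part C, module OUT: covering the leftover edges between outer vertices

The greedy list edge colouring `StLEC` is applied to the graph `O` of the leftover edges; the list of an edge
`(a, b)` is the set of its common neighbours in the reservoir.
-/

set_option autoImplicit false

namespace Pool.Agent.Helper97.IAC

open Finset
open Pool.Agent.Helper93.IA

section

variable {α β γ : Type} [DecidableEq α] [DecidableEq β] [DecidableEq γ]

/-- The set of triangles given by a choice of third vertices. -/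
private def tri (O : Finset (α × β)) (f : α × β → γ) : Finset (α × β × γ) :=
  O.image fun e => (e.1, e.2, f e)

private theorem mem_tri {O : Finset (α × β)} {f : α × β → γ} {T : α × β × γ} :
    T ∈ tri O f ↔ ∃ e ∈ O, (e.1, e.2, f e) = T := by
  simp only [tri, mem_image]

private theorem tri_image_eA (O : Finset (α × β)) (f : α × β → γ) :
    (tri O f).image eA = O := by
  ext e
  simp only [mem_image]
  constructor
  · rintro ⟨T, hT, rfl⟩
    obtain ⟨e', he', rfl⟩ := mem_tri.1 hT
    simpa [eA] using he'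
  · intro he
    exact ⟨(e.1, e.2, f e), mem_tri.2 ⟨e, he, rfl⟩, by simp [eA]⟩

private theorem d1_tri_le (O : Finset (α × β)) (f : α × β → γ) (b : β) :
    d1 ((tri O f).image eB) b ≤ d2 O b := by
  unfold d1 d2
  have hsub : (((tri O f).image eB).filter fun e => e.1 = b) ⊆
      (O.filter fun e => e.2 = b).image fun e => (e.2, f e) := by
    intro x hx
    rw [mem_filter, mem_image] at hx
    obtain ⟨⟨T, hT, rfl⟩, hb⟩ := hx
    obtain ⟨e, he, rfl⟩ := mem_tri.1 hT
    rw [mem_image]
    exact ⟨e, mem_filter.2 ⟨he, hb⟩, rfl⟩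
  exact le_trans (card_le_card hsub) card_image_le

private theorem d2_tri_le (O : Finset (α × β)) (f : α × β → γ) (a : α) :
    d2 ((tri O f).image eC) a ≤ d1 O a := by
  unfold d1 d2
  have hsub : (((tri O f).image eC).filter fun e => e.2 = a) ⊆
      (O.filter fun e => e.1 = a).image fun e => (f e, e.1) := by
    intro x hx
    rw [mem_filter, mem_image] at hx
    obtain ⟨⟨T, hT, rfl⟩, ha⟩ := hx
    obtain ⟨e, he, rfl⟩ := mem_tri.1 hT
    rw [mem_image]
    exact ⟨e, mem_filter.2 ⟨he, ha⟩, rfl⟩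
  exact le_trans (card_le_card hsub) card_image_le

private theorem pack_tri (O : Finset (α × β)) (f : α × β → γ) (QB : Finset (β × γ))
    (QC : Finset (γ × α)) (h1 : ∀ e ∈ O, (e.2, f e) ∈ QB ∧ (f e, e.1) ∈ QC)
    (h2 : ∀ e ∈ O, ∀ e' ∈ O, e ≠ e' → (e.1 = e'.1 ∨ e.2 = e'.2) → f e ≠ f e') :
    Pack O QB QC (tri O f) := by
  refine ⟨?_, ?_, ?_, ?_, ?_, ?_⟩
  · intro T hT
    obtain ⟨e, he, rfl⟩ := mem_tri.1 hT
    simpa [eA] using he
  · intro T hT
    obtain ⟨e, he, rfl⟩ := mem_tri.1 hT
    exact (h1 e he).1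
  · intro T hT
    obtain ⟨e, he, rfl⟩ := mem_tri.1 hT
    exact (h1 e he).2
  · intro T hT T' hT' h
    obtain ⟨e, he, rfl⟩ := mem_tri.1 hT
    obtain ⟨e', he', rfl⟩ := mem_tri.1 hT'
    have h' : e = e' := by
      have h3 := Prod.mk.inj h
      exact Prod.ext h3.1 h3.2
    rw [h']
  · intro T hT T' hT' h
    obtain ⟨e, he, rfl⟩ := mem_tri.1 hT
    obtain ⟨e', he', rfl⟩ := mem_tri.1 hT'
    have h3 := Prod.mk.inj h
    have h' : e = e' := by
      by_contra hne
      exact h2 e he e' he' hne (Or.inr h3.1) h3.2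
    rw [h']
  · intro T hT T' hT' h
    obtain ⟨e, he, rfl⟩ := mem_tri.1 hT
    obtain ⟨e', he', rfl⟩ := mem_tri.1 hT'
    have h3 := Prod.mk.inj h
    have h' : e = e' := by
      by_contra hne
      exact h2 e he e' he' hne (Or.inl h3.2) h3.1
    rw [h']

end

/-- OUT: covering the leftover edges between outer vertices. -/
theorem hOUT : StOUT := by
  intro hLEC α β γ _ _ _ _ _ _ t s O B QB C QC U1 U2 U3 hO hQB hQC hSm hts hcm
  rcases O.eq_empty_or_nonempty with h0 | ⟨e0, he0⟩
  · subst h0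
    refine ⟨∅, ⟨by simp, by simp, by simp, by simp, by simp, by simp⟩, by simp, ?_, ?_⟩
    · intro b
      have h := hSm.2 b
      simpa [d1, d2] using h
    · intro a
      have h := hSm.1 a
      simpa [d1, d2] using h
  · have hlist : ∀ e ∈ O, ((d1 O e.1 + d2 O e.2 : ℕ) : ℝ) ≤
        ((univ.filter fun c => (e.2, c) ∈ QB ∧ (c, e.1) ∈ QC).card : ℝ) := by
      intro e he
      have h1 := hSm.1 e.1
      have h2 := hSm.2 e.2
      have h3 := hcm e.1 (hO e he).1 e.2 (hO e he).2
      push_cast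
      linarith
    have hpos : 1 ≤ d1 O e0.1 := by
      unfold d1
      exact Finset.card_pos.2 ⟨e0, mem_filter.2 ⟨he0, rfl⟩⟩
    have hne : Nonempty γ := by
      have h1 : d1 O e0.1 + d2 O e0.2 ≤
          (univ.filter fun c => (e0.2, c) ∈ QB ∧ (c, e0.1) ∈ QC).card := by
        exact_mod_cast hlist e0 he0
      have h2 : 0 < (univ.filter fun c => (e0.2, c) ∈ QB ∧ (c, e0.1) ∈ QC).card := by omega
      obtain ⟨c, _⟩ := Finset.card_pos.1 h2
      exact ⟨c⟩
    obtain ⟨f, hf1, hf2⟩ := hLEC α β γ O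
      (fun e => univ.filter fun c => (e.2, c) ∈ QB ∧ (c, e.1) ∈ QC)
      (fun e he => by exact_mod_cast hlist e he)
    have hf3 : ∀ e ∈ O, (e.2, f e) ∈ QB ∧ (f e, e.1) ∈ QC := by
      intro e he
      have h := hf1 e he
      simpa only [mem_filter, mem_univ, true_and] using h
    refine ⟨tri O f, ?_, tri_image_eA O f, ?_, ?_⟩
    · refine pack_tri O f _ _ ?_ hf2
      intro e he
      obtain ⟨hb, hc⟩ := hf3 e he
      have hb' := mem_crs.1 (hQB hb)
      have hc' := mem_crs.1 (hQC hc)
      have hu := hO e he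
      have h3 : f e ∈ U3 := by
        by_contra h
        exact hb'.2 ⟨fun h4 => absurd h4 hu.2, fun h4 => absurd h4 h⟩
      exact ⟨mem_oi.2 ⟨hb, hu.2, h3⟩, mem_io.2 ⟨hc, h3, hu.1⟩⟩
    · intro b
      exact le_trans (by exact_mod_cast d1_tri_le O f b) (hSm.2 b)
    · intro a
      exact le_trans (by exact_mod_cast d2_tri_le O f a) (hSm.1 a)

end Pool.Agent.Helper97.IAC
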